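import Mathlib
import Pool.Agent.Helper26.Maz.Final

/-!
# MP_07bfe7_gt: Mazur's 4-manifold has no locally constructible triangulation
-/

set_option autoImplicit false

namespace Pool.Agent.Results.MP_07bfe7_gt.Mazur

universe u v

open Pool.Agent.Helper26.LC Pool.Agent.Helper26.Maz

/-- Mazur's 4-manifold, the space obtained from `S¹ × D³` by attaching a 2-handle along Mazur's curve
`K` in `S¹ × S²` with framing zero (`IsMazur W`; the curve `K` is the explicit lattice polygon
`knot 0`, and the framing is given by its parallel `knot (1 / 2)`, the translate of `K` by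
`(1 / 2, 1 / 2, 1 / 2)`), exists, and no finite simplicial complex whose underlying space is
homeomorphic to it is locally constructible. -/
theorem result :
    (∃ (W : Type) (_ : TopologicalSpace W), IsMazur W) ∧
    ∀ (W : Type u) [TopologicalSpace W], IsMazur W →
      ∀ (V : Type v) [Fintype V] [DecidableEq V] (F : Finset (Finset V)),
        Nonempty (Space F ≃ₜ W) → ¬ IsLC 4 F := by
  refine ⟨exists_W phiM isTube_phiM, ?_⟩
  rintro W _ ⟨hT2, φ, iA, iH, hφ, hW⟩ V _ _ F ⟨h⟩
  exact no_LC hφ hW F h

end Pool.Agent.Results.MP_07bfe7_gt.Mazur
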